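import Mathlib

namespace Pool.Agent.Results.MP_b1d8d5_co.Exists12

/-- `op` is a quasigroup operation: both equations `op a x = b`, `op x a = b` have exactly one solution. -/
def IsQuasigroup {S : Type} (op : S → S → S) : Prop :=
  (∀ a b, ∃! x, op a x = b) ∧ (∀ a b, ∃! x, op x a = b)

/-- `star` is the (3,2,1)-conjugate of `op`. -/
def IsConj321 {S : Type} (op star : S → S → S) : Prop :=
  ∀ x y z, star z y = x ↔ op x y = z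

/-- Orthogonality of two operations on the same set. -/
def Orthogonal {S : Type} (op star : S → S → S) : Prop :=
  ¬ ∃ a b c d, a ≠ b ∧ c ≠ d ∧ op a c = op b d ∧ star a c = star b d

def tabL : List (List (Fin 12)) :=
  [[0, 10, 8, 1, 11, 4, 7, 9, 3, 6, 2, 5],
   [5, 1, 11, 9, 2, 6, 0, 8, 10, 4, 7, 3],
   [7, 0, 2, 6, 10, 3, 4, 1, 9, 11, 5, 8],
   [4, 8, 1, 3, 7, 11, 9, 5, 2, 10, 6, 0],
   [6, 5, 9, 2, 4, 8, 1, 10, 0, 3, 11, 7],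
   [9, 7, 0, 10, 3, 5, 8, 2, 11, 1, 4, 6],
   [8, 11, 3, 5, 9, 2, 6, 0, 4, 7, 1, 10],
   [3, 9, 6, 4, 0, 10, 11, 7, 1, 5, 8, 2],
   [11, 4, 10, 7, 5, 1, 3, 6, 8, 2, 0, 9],
   [2, 6, 5, 11, 8, 0, 10, 4, 7, 9, 3, 1],
   [1, 3, 7, 0, 6, 9, 2, 11, 5, 8, 10, 4],
   [10, 2, 4, 8, 1, 7, 5, 3, 6, 0, 9, 11]]

def tabS : List (List (Fin 12)) :=
  [[0, 2, 5, 10, 7, 9, 1, 6, 4, 11, 8, 3],
   [10, 1, 3, 0, 11, 8, 4, 2, 7, 5, 6, 9],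
   [9, 11, 2, 4, 1, 6, 10, 5, 3, 8, 0, 7],
   [7, 10, 6, 3, 5, 2, 8, 11, 0, 4, 9, 1],
   [3, 8, 11, 7, 4, 0, 2, 9, 6, 1, 5, 10],
   [1, 4, 9, 6, 8, 5, 11, 3, 10, 7, 2, 0],
   [4, 9, 7, 2, 10, 1, 6, 8, 11, 0, 3, 5],
   [2, 5, 10, 8, 3, 11, 0, 7, 9, 6, 1, 4],
   [6, 3, 0, 11, 9, 4, 5, 1, 8, 10, 7, 2],
   [5, 7, 4, 1, 6, 10, 3, 0, 2, 9, 11, 8],
   [11, 0, 8, 5, 2, 7, 9, 4, 1, 3, 10, 6],
   [8, 6, 1, 9, 0, 3, 7, 10, 5, 2, 4, 11]]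

def opL (a b : Fin 12) : Fin 12 := (tabL.getD a.val []).getD b.val 0
def opS (a b : Fin 12) : Fin 12 := (tabS.getD a.val []).getD b.val 0

theorem h1 : ∀ a b : Fin 12, ∃ x, opL a x = b ∧ ∀ y, opL a y = b → y = x := by decide +kernel
theorem h2 : ∀ a b : Fin 12, ∃ x, opL x a = b ∧ ∀ y, opL y a = b → y = x := by decide +kernel
theorem h3 : ∀ x : Fin 12, opL x x = x := by decide +kernel
theorem h4 : ∀ x y z : Fin 12, opS z y = x ↔ opL x y = z := by decide +kernel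
theorem h5 : ∀ a b c d : Fin 12, opL a c = opL b d → opS a c = opS b d → a = b := by decide +kernel

theorem result : ∃ op star : Fin 12 → Fin 12 → Fin 12,
    IsQuasigroup op ∧ (∀ x, op x x = x) ∧ IsConj321 op star ∧ Orthogonal op star :=
  ⟨opL, opS, ⟨h1, h2⟩, h3, h4, fun ⟨a, b, c, d, hab, _, e1, e2⟩ => hab (h5 a b c d e1 e2)⟩

end Pool.Agent.Results.MP_b1d8d5_co.Exists12
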